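import Mathlib
import Pool.Agent.L0h46.CZ.Stm

set_option autoImplicit false

/-!
# Project CZ, module LIB: linear forms with `m`-full values
-/

namespace Pool.Agent.L0h66.CZ

open MvPolynomial Pool.Agent.TH910.Voj Pool.Agent.L0h46.CZ

lemma single_of_degree {n : ℕ} (d : Fin n →₀ ℕ) (h : d.degree = 1) :
    ∃ i, d = Finsupp.single i 1 := by
  classical
  have h1 : ∑ i, d i = 1 := by
    rw [← h, Finsupp.degree_eq_sum]
  have h2 : ∃ i, d i ≠ 0 := by
    by_contra hcon
    push Not at hcon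
    simp [hcon] at h1
  obtain ⟨i, hi⟩ := h2
  refine ⟨i, ?_⟩
  have h3 := Finset.add_sum_erase Finset.univ (fun i => d i) (Finset.mem_univ i)
  have h5 : ∑ x ∈ Finset.univ.erase i, d x = 0 := by omega
  have h6 : d i = 1 := by omega
  rw [Finset.sum_eq_zero_iff] at h5
  ext k
  by_cases hk : i = k
  · subst hk
    simp [h6]
  · rw [Finsupp.single_apply, if_neg hk]
    exact h5 k (Finset.mem_erase.mpr ⟨fun h => hk h.symm, Finset.mem_univ k⟩)

lemma supp_single {n : ℕ} {F : MvPolynomial (Fin n) ℤ} (hF : F.IsHomogeneous 1) {d : Fin n →₀ ℕ}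
    (hd : d ∈ F.support) : ∃ i, d = Finsupp.single i 1 := by
  apply single_of_degree
  have h1 := hF (mem_support_iff.mp hd)
  rw [← h1, Finsupp.degree_eq_weight_one]
  rfl

lemma eval_lin {n : ℕ} {F : MvPolynomial (Fin n) ℤ} (hF : F.IsHomogeneous 1) (x : Fin n → ℤ) :
    eval x F = ∑ i, coeff (Finsupp.single i 1) F * x i := by
  classical
  rw [eval_eq']
  have hinj : Function.Injective (fun i : Fin n => (Finsupp.single i 1 : Fin n →₀ ℕ)) := by
    intro i k hik
    exact Finsupp.single_left_injective one_ne_zero hik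
  have h1 : F.support ⊆ Finset.univ.image (fun i : Fin n => (Finsupp.single i 1 : Fin n →₀ ℕ)) := by
    intro d hd
    obtain ⟨i, rfl⟩ := supp_single hF hd
    exact Finset.mem_image_of_mem _ (Finset.mem_univ i)
  rw [Finset.sum_subset h1, Finset.sum_image (fun i _ k _ h => hinj h)]
  · refine Finset.sum_congr rfl fun i _ => ?_
    congr 1
    rw [Finset.prod_eq_single i]
    · simp
    · intro k _ hk
      rw [Finsupp.single_apply, if_neg (fun h => hk h.symm), pow_zero]
    · intro h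
      exact absurd (Finset.mem_univ i) h
  · intro d _ hd
    rw [notMem_support_iff.mp hd, zero_mul]

theorem t_LIB : S_LIB := by
  classical
  intro hLIA n F hF hF0 m S hm
  obtain ⟨K, hK, hL⟩ := hLIA m S hm
  obtain ⟨j, hj⟩ : ∃ j, coeff (Finsupp.single j 1) F ≠ 0 := by
    obtain ⟨d, hd⟩ := Finset.nonempty_iff_ne_empty.mpr (fun h => hF0 (support_eq_empty.mp h))
    obtain ⟨j, rfl⟩ := supp_single hF hd
    exact ⟨j, mem_support_iff.mp hd⟩
  set a : Fin (n + 1) → ℤ := fun i => coeff (Finsupp.single i 1) F with ha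
  have hev : ∀ x, eval x F = ∑ i, a i * x i := fun x => eval_lin hF x
  obtain ⟨K', hK'⟩ : ∃ K' : ℕ, K' = ∑ i, (a i).natAbs := ⟨_, rfl⟩
  have hK'1 : 1 ≤ K' := by
    rw [hK']
    exact (Nat.one_le_iff_ne_zero.mpr (Int.natAbs_ne_zero.mpr hj)).trans
      (Finset.single_le_sum (f := fun i => (a i).natAbs) (fun i _ => Nat.zero_le _)
        (Finset.mem_univ j))
  refine ⟨1 / 3, by norm_num, K * (K' : ℝ) ^ ((2 : ℝ) / 3) * 3 ^ n, ?_, fun B hB => ?_⟩
  · have : (0 : ℝ) < K' := by exact_mod_cast hK'1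
    positivity
  have hB1 : (1 : ℝ) ≤ B := by exact_mod_cast hB
  have hB0 : (0 : ℝ) < B := by linarith
  set E : Finset ℤ := (Finset.Icc (-((K' * B : ℕ) : ℤ)) ((K' * B : ℕ) : ℤ)).filter
    (fun N => N ≠ 0 ∧ Full m S N) with hE
  have hEc := hL (K' * B) (Nat.one_le_iff_ne_zero.mpr (by positivity)) E (by
    intro N hN
    rw [hE, Finset.mem_filter, Finset.mem_Icc] at hN
    exact ⟨hN.2.1, abs_le.mpr hN.1, hN.2.2⟩)
  have hle : Set.ncard {x | x ∈ box (n + 1) B ∧ (eval x F ≠ 0 ∧ Full m S (eval x F))} ≤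
      (E ×ˢ box n B).card := by
    rw [← Set.ncard_coe_finset]
    apply Set.ncard_le_ncard_of_injOn (fun x : Fin (n + 1) → ℤ =>
      ((eval x F, fun i : Fin n => x (j.succAbove i)) : ℤ × (Fin n → ℤ)))
    · rintro x ⟨hx, hx0, hx1⟩
      rw [mem_box] at hx
      rw [Finset.mem_coe, Finset.mem_product]
      refine ⟨?_, ?_⟩
      · rw [hE, Finset.mem_filter, Finset.mem_Icc]
        refine ⟨abs_le.mp ?_, hx0, hx1⟩
        rw [hev, hK']
        push_cast
        rw [Finset.sum_mul]
        refine (Finset.abs_sum_le_sum_abs _ _).trans (Finset.sum_le_sum fun i _ => ?_)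
        rw [abs_mul]
        exact mul_le_mul_of_nonneg_left (hx i) (abs_nonneg _)
      · rw [mem_box]
        exact fun i => hx _
    · rintro x - y - hxy
      simp only [Prod.mk.injEq] at hxy
      obtain ⟨h1, h2⟩ := hxy
      have h3 : ∀ i, x (j.succAbove i) = y (j.succAbove i) := fun i => congrFun h2 i
      rw [hev, hev, Fin.sum_univ_succAbove _ j, Fin.sum_univ_succAbove _ j] at h1
      simp only [h3] at h1
      have h4 : a j * x j = a j * y j := by linarith
      have h5 : x j = y j := mul_left_cancel₀ hj h4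
      funext i
      rcases Fin.eq_self_or_eq_succAbove j i with rfl | ⟨k, rfl⟩
      · exact h5
      · exact h3 k
  have h1 : ((E ×ˢ box n B).card : ℝ) ≤
      K * ((K' * B : ℕ) : ℝ) ^ ((2 : ℝ) / 3) * (3 ^ n * (B : ℝ) ^ (n : ℝ)) := by
    rw [Finset.card_product, Nat.cast_mul]
    exact mul_le_mul hEc (card_box_le n B hB) (by positivity) (by positivity)
  refine (Nat.cast_le.mpr hle).trans (h1.trans (le_of_eq ?_))
  rw [Nat.cast_mul, Real.mul_rpow (by positivity) (by positivity)]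
  have h2 : (B : ℝ) ^ (((n + 1 : ℕ) : ℝ) - 1 / 3) = (B : ℝ) ^ ((2 : ℝ) / 3) * (B : ℝ) ^ (n : ℝ) := by
    rw [← Real.rpow_add hB0]
    congr 1
    push_cast
    ring
  rw [h2]
  ring

end Pool.Agent.L0h66.CZ
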